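import Pool.Agent.N141.TS.Thin5
import Pool.Agent.N54.ML.Gen

/-! # A large prime divisor above five, along well distributed sequences of vectors of polynomial growth

After `Pool.Agent.N141.TS.Thin5` (helper141). -/

set_option autoImplicit false

namespace Pool.Agent.N54.ML

open Finset Filter MvPolynomial Pool.Agent.N666.TM Pool.Agent.Y722.HS Pool.Agent.N141.TS

/-- integers and primes, a pole above five -/
theorem thinFive {r : ℕ} {A D : MvPolynomial (Fin r) ℤ} (hD : D ≠ 0) (hM : MeanPoles A D)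
    {z : ℕ → Fin r → ℤ} {κ : ℝ} (hκ : 0 < κ) (h : Pool.Agent.N54.ME.WS z κ) (hz : Poly z)
    (ε : ℝ) (hε : 0 < ε) : ∃ σ : ℝ, 0 ≤ σ ∧ ∃ N₀ : ℕ, ∀ N : ℕ, N₀ ≤ N →
      ({n : ℕ | n ∈ Ioc N (2 * N) ∧ ¬ Big5 σ (eval (z n) A) (eval (z n) D)}.ncard : ℝ) ≤
        ε * (Ioc N (2 * N)).card ∧
      ({n : ℕ | n ∈ (Ioc N (2 * N)).filter Nat.Prime ∧
        ¬ Big5 σ (eval (z n) A) (eval (z n) D)}.ncard : ℝ) ≤
        ε * ((Ioc N (2 * N)).filter Nat.Prime).card := by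
  classical
  obtain ⟨θ, hθ, N₁, hN₁, h1⟩ := thin0 hD (Ω := ZP A D) hM hκ h ε hε
  obtain ⟨CA, mA, nA, hCA, hA⟩ := val_growth A hz
  obtain ⟨CD, mD, nD, hCD, hDg⟩ := val_growth D hz
  obtain ⟨N₂, hN₂⟩ := Filter.eventually_atTop.1
    (((tendsto_rpow_atTop hθ).comp (tendsto_natCast_atTop_atTop (R := ℝ))).eventually_ge_atTop 5)
  obtain ⟨C, hC⟩ : ∃ C : ℝ, C = max CA CD := ⟨_, rfl⟩
  obtain ⟨m, hm⟩ : ∃ m : ℕ, m = max mA mD := ⟨_, rfl⟩
  have hCAC : CA ≤ C := hC ▸ le_max_left _ _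
  have hCDC : CD ≤ C := hC ▸ le_max_right _ _
  have hmA : mA ≤ m := hm ▸ le_max_left _ _
  have hmD : mD ≤ m := hm ▸ le_max_right _ _
  have key : ∀ N : ℕ, N₁ + nA + nD + ⌈C⌉₊ + N₂ ≤ N → ∀ n ∈ Ioc N (2 * N),
      ¬ Big5 (2 * (1 + m) / θ) (eval (z n) A) (eval (z n) D) →
      ¬ (eval (z n) D ≠ 0 ∧ ∃ p : ℕ, p.Prime ∧ (N : ℝ) ^ θ ≤ p ∧
        red p (z n) ∈ ZP A D p) := by
    intro N hN n hn hbad
    rintro ⟨hc2, p, hp3, hpN, hpZ⟩
    have hN1 : 1 ≤ N := by omega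
    have hN1R : (1 : ℝ) ≤ N := by exact_mod_cast hN1
    have hN0 : (0 : ℝ) < N := by linarith
    have hCN : C ≤ N := (Nat.le_ceil C).trans (by exact_mod_cast (by omega : ⌈C⌉₊ ≤ N))
    have h5N : (5 : ℝ) ≤ (N : ℝ) ^ θ := hN₂ N (by omega)
    have h5p : 5 ≤ p := by exact_mod_cast h5N.trans hpN
    have hpZ' : aeval (fun i => (z n i : ZMod p)) D = 0 ∧
      aeval (fun i => (z n i : ZMod p)) A ≠ 0 := hpZ
    rw [eval_red, eval_red, ZMod.intCast_zmod_eq_zero_iff_dvd, Ne,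
      ZMod.intCast_zmod_eq_zero_iff_dvd] at hpZ'
    apply hbad
    have hC1 : 1 ≤ C := hCA.trans hCAC
    have hpm : (1 : ℝ) ≤ (N : ℝ) ^ m := one_le_pow₀ hN1R
    refine ⟨hc2, p, hp3, h5p, hpZ'.1, hpZ'.2, C * (N : ℝ) ^ m, ?_, ?_, ?_⟩
    · refine (hA N hN1 (by omega) n hn).trans ?_
      exact mul_le_mul hCAC (pow_le_pow_right₀ hN1R hmA) (by positivity) (by linarith)
    · refine (hDg N hN1 (by omega) n hn).trans ?_
      exact mul_le_mul hCDC (pow_le_pow_right₀ hN1R hmD) (by positivity) (by linarith)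
    · have h1 : Real.log (C * (N : ℝ) ^ m) ≤ (1 + m) * Real.log N := by
        rw [Real.log_mul (by positivity) (by positivity), Real.log_pow]
        have := Real.log_le_log (by linarith) hCN
        linarith
      have h2 : θ * Real.log N ≤ Real.log p := by
        rw [← Real.log_rpow hN0]
        exact Real.log_le_log (by positivity) hpN
      calc 2 * Real.log (C * (N : ℝ) ^ m) ≤ 2 * ((1 + m) * Real.log N) := by linarith
        _ = 2 * (1 + m) / θ * (θ * Real.log N) := by field_simp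
        _ ≤ 2 * (1 + m) / θ * Real.log p := mul_le_mul_of_nonneg_left h2 (by positivity)
  refine ⟨2 * (1 + m) / θ, by positivity, N₁ + nA + nD + ⌈C⌉₊ + N₂, fun N hN => ?_⟩
  obtain ⟨k1, k2⟩ := h1 N (by omega)
  exact ⟨(ncard_mono fun n hn => key N hN n hn).trans k1,
    (ncard_mono fun n hn => key N hN n (Finset.mem_of_mem_filter n hn)).trans k2⟩

end Pool.Agent.N54.ML
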